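import Pool.Agent.X67.AP.Hyp

set_option autoImplicit false

namespace Pool.Agent.Results.MP_458f0b_nt.InverseClasses

open Pool.Agent.X67.AP

/-- **Inverse residue classes, and a class and its discrete logarithm, with large least primes.** Let
`ε > 0`. There are `c > 0` and `p₀` such that for all primes `p ≥ p₀` and all intervals `(L₁, R₁]`,
`(L₂, R₂]` in `[0, p)` the product of whose lengths is at least `p ^ (3 / 2 + ε)` the following holds,
where `R(p) = p log p (log₂ p)² log₄ p / (log₃ p)²` is the order of magnitude of the best known lower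
bound for the largest least prime in the residue classes modulo `p`.

(1) For every `a` prime to `p` there are `x` in the first and `y` in the second interval with
`x y ≡ a (mod p)` such that there is no prime below `c R(p)` in the classes of `x` and of `y`
modulo `p`.

(2) For every primitive root `γ` modulo `p` there are `n` in the first and `x` in the second
interval with `γ ^ n ≡ x (mod p)` such that there is no prime below `c R(p)` in the classes of `n`
and of `x` modulo `p`. -/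
theorem result (ε : ℝ) (hε : 0 < ε) : ∃ c : ℝ, 0 < c ∧ ∃ p₀ : ℕ,
    ∀ (p : ℕ) [Fact p.Prime], p₀ ≤ p → ∀ L₁ R₁ L₂ R₂ : ℕ, L₁ ≤ R₁ → R₁ < p → L₂ ≤ R₂ → R₂ < p →
      (p : ℝ) ^ (3 / 2 + ε) ≤ ((R₁ - L₁ : ℕ) : ℝ) * ((R₂ - L₂ : ℕ) : ℝ) →
    (∀ a : ℕ, ¬ p ∣ a →
      ∃ x y : ℕ, L₁ < x ∧ x ≤ R₁ ∧ L₂ < y ∧ y ≤ R₂ ∧ x * y ≡ a [MOD p] ∧
        ∀ q : ℕ, q.Prime → (q ≡ x [MOD p] ∨ q ≡ y [MOD p]) →
          c * (p * (Real.log p * (Real.log (Real.log p)) ^ 2 *
            Real.log (Real.log (Real.log (Real.log p))) /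
              (Real.log (Real.log (Real.log p))) ^ 2)) < q) ∧
    (∀ γ : ZMod p, orderOf γ = p - 1 →
      ∃ n x : ℕ, L₁ < n ∧ n ≤ R₁ ∧ L₂ < x ∧ x ≤ R₂ ∧ γ ^ n = (x : ZMod p) ∧
        ∀ q : ℕ, q.Prime → (q ≡ n [MOD p] ∨ q ≡ x [MOD p]) →
          c * (p * (Real.log p * (Real.log (Real.log p)) ^ 2 *
            Real.log (Real.log (Real.log (Real.log p))) /
              (Real.log (Real.log (Real.log p))) ^ 2)) < q) := by
  obtain ⟨κ₁, hκ₁, p₁, h₁⟩ := hyperbola_least ε hε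
  obtain ⟨κ₂, hκ₂, p₂, h₂⟩ := dlog_least ε hε
  set κ := min κ₁ κ₂ with hκdef
  have hκ : 0 < κ := lt_min hκ₁ hκ₂
  have k1 : κ ≤ κ₁ := min_le_left _ _
  have k2 : κ ≤ κ₂ := min_le_right _ _
  have ev : ∀ᶠ p : ℕ in Filter.atTop, 0 ≤ Real.log (Real.log (Real.log (Real.log p))) ∧
      0 ≤ Real.log (p : ℝ) := by
    have t1 : Filter.Tendsto (fun p : ℕ => Real.log (p : ℝ)) Filter.atTop Filter.atTop :=
      Real.tendsto_log_atTop.comp tendsto_natCast_atTop_atTop
    have t2 : Filter.Tendsto (fun p : ℕ => Real.log (Real.log (Real.log (Real.log (p : ℝ)))))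
        Filter.atTop Filter.atTop :=
      Real.tendsto_log_atTop.comp (Real.tendsto_log_atTop.comp (Real.tendsto_log_atTop.comp t1))
    exact (t2.eventually_ge_atTop 0).and (t1.eventually_ge_atTop 0)
  obtain ⟨p₄, hp₄⟩ := Filter.eventually_atTop.1 ev
  refine ⟨κ, hκ, max (max p₁ p₂) p₄, ?_⟩
  intro p hfp hp L₁ R₁ L₂ R₂ e1 e2 e3 e4 e5
  have hpp : p.Prime := Fact.out
  have q1 : p₁ ≤ p := ((le_max_left _ _).trans (le_max_left _ _)).trans hp
  have q2 : p₂ ≤ p := ((le_max_right _ _).trans (le_max_left _ _)).trans hp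
  have q4 : p₄ ≤ p := (le_max_right _ _).trans hp
  obtain ⟨l4, l1⟩ := hp₄ p q4
  set R : ℝ := p * (Real.log p * (Real.log (Real.log p)) ^ 2 *
      Real.log (Real.log (Real.log (Real.log p))) / (Real.log (Real.log (Real.log p))) ^ 2) with hR
  have hR0 : 0 ≤ R := by
    rw [hR]
    positivity
  have hRff : R = p * Pool.Agent.H256R2.SC.ff p := by
    rw [hR]
    rfl
  refine ⟨fun a ha => ?_, fun γ hγ => ?_⟩
  · obtain ⟨x, y, f1, f2, f3, f4, f5, f6⟩ := h₁ p hpp q1 a L₁ R₁ L₂ R₂ ha e1 e2 e3 e4 e5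
    refine ⟨x, y, f1, f2, f3, f4, f5, fun q hq hqx => ?_⟩
    refine lt_of_le_of_lt (mul_le_mul_of_nonneg_right k1 hR0) ?_
    rw [hRff]
    exact f6 q hq hqx
  · obtain ⟨x, y, f1, f2, f3, f4, f5, f6⟩ := h₂ p q2 γ hγ L₁ R₁ L₂ R₂ e1 e2 e3 e4 e5
    refine ⟨x, y, f1, f2, f3, f4, f5, fun q hq hqx => ?_⟩
    refine lt_of_le_of_lt (mul_le_mul_of_nonneg_right k2 hR0) ?_
    rw [hRff]
    exact f6 q hq hqx

end Pool.Agent.Results.MP_458f0b_nt.InverseClasses
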