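import Mathlib
import Pool.Agent.Y879.AP.Phi
import Pool.Agent.Y879.GL.Pattern
import Pool.Agent.X262.Pois

set_option autoImplicit false

/-!
# The law of the least almost prime in the residue classes modulo `q`
-/

namespace Pool.Agent.Results.MP_458f0b_nt.LeastAlmostPrimeLaw

open Finset Filter

/-- `m` is almost prime (relative to `q`): all its prime factors are larger than `q ^ (1 / r)`. -/
def AlmostPrime (q r m : ℕ) : Prop := ∀ p : ℕ, p.Prime → p ∣ m → (q : ℝ) ^ (1 / (r : ℝ)) < p

/-- The number of the almost primes among the `T` terms `b + q (H + 1), …, b + q (H + T)` of the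
residue class of `b` modulo `q`. -/
noncomputable def number (q r H T b : ℕ) : ℕ :=
  {h : ℕ | H < h ∧ h ≤ H + T ∧ AlmostPrime q r (b + q * h)}.ncard

/-- `b + q (H + first q r H b)` is the first almost prime among the terms
`b + q (H + 1), b + q (H + 2), …` of the residue class of `b`. -/
noncomputable def first (q r H b : ℕ) : ℕ := sInf {h : ℕ | 1 ≤ h ∧ AlmostPrime q r (b + q * (H + h))}

/-- `q * scale q r = (exp γ / r) φ(q) log q`, the mean distance of the almost primes in a reduced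
residue class (`γ` is Euler's constant). -/
noncomputable def scale (q r : ℕ) : ℝ :=
  (q.totient : ℝ) / q * Real.log q * Real.exp Real.eulerMascheroniConstant / r

open Pool.Agent.Y879.AP Pool.Agent.W123.RP Pool.Agent.H373R2.T7 Pool.Agent.TH464.PO Pool.Agent.X262.Pois

lemma rough_iff (q r m : ℕ) :
    AlmostPrime q r m ↔ ∀ p ∈ pz ⌊(q : ℝ) ^ (1 / (r : ℝ))⌋₊, ¬ p ∣ m := by
  constructor
  · intro h p hp hd
    have h1 := h p (mem_pz.1 hp).2 hd
    have h2 := (mem_pz.1 hp).1
    have h3 : (p : ℝ) ≤ (q : ℝ) ^ (1 / (r : ℝ)) := (Nat.le_floor_iff (by positivity)).1 h2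
    linarith
  · intro h p hp hd
    by_contra hlt
    exact h p (mem_pz.2 ⟨Nat.le_floor (not_lt.1 hlt), hp⟩) hd

lemma number_eq (q r H T b : ℕ) :
    number q r H T b = Wr q ⌊(q : ℝ) ^ (1 / (r : ℝ))⌋₊ T (b + q * H) := by
  classical
  unfold number Wr
  rw [← Set.ncard_coe_finset]
  symm
  apply Set.ncard_congr (fun h _ => h + H)
  · intro h hh
    simp only [coe_filter, mem_Icc, Set.mem_ofPred_eq] at hh ⊢
    refine ⟨by omega, by omega, ?_⟩
    rw [rough_iff]
    intro p hp hd
    apply hh.2 p hp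
    rw [show b + q * H + q * h = b + q * (h + H) by ring]
    exact hd
  · intro a b _ _ h
    simpa using h
  · intro h hh
    simp only [Set.mem_ofPred_eq] at hh
    refine ⟨h - H, ?_, by omega⟩
    simp only [coe_filter, mem_Icc, Set.mem_ofPred_eq]
    refine ⟨by omega, ?_⟩
    intro p hp hd
    apply (rough_iff q r _).1 hh.2.2 p hp
    rw [show b + q * H + q * (h - H) = b + q * h by
      obtain ⟨k, rfl⟩ : ∃ k, h = H + k := ⟨h - H, by omega⟩
      rw [Nat.add_sub_cancel_left]
      ring] at hd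
    exact hd

lemma shift_card (q Z Y s : ℕ) (P : ℕ → Prop)
    (i1 : DecidablePred fun b : ℕ => b.Coprime q ∧ P (b + q * s))
    (i2 : DecidablePred fun b : ℕ => b.Coprime q ∧ P b) :
    ((Ioc Z (Z + Y)).filter (fun b => b.Coprime q ∧ P (b + q * s))).card =
      ((Ioc (Z + q * s) (Z + q * s + Y)).filter (fun b => b.Coprime q ∧ P b)).card := by
  apply Finset.card_bij (fun b _ => b + q * s)
  · intro b hb
    rw [mem_filter, mem_Ioc] at hb ⊢
    refine ⟨by omega, ?_, hb.2.2⟩
    have h := hb.2.1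
    rwa [Nat.coprime_add_mul_left_left]
  · intro a _ b _ h
    exact Nat.add_right_cancel h
  · intro b hb
    rw [mem_filter, mem_Ioc] at hb
    refine ⟨b - q * s, ?_, by omega⟩
    have e : b - q * s + q * s = b := by omega
    rw [mem_filter, mem_Ioc, e]
    refine ⟨by omega, ?_, hb.2.2⟩
    have h := hb.2.1
    rw [← e, Nat.coprime_add_mul_left_left] at h
    exact h

/-- the first almost prime comes after the window -/
lemma first_iff (q r H b T : ℕ) (hq : 2 ≤ q) (hr : 1 ≤ r) (hb : b.Coprime q) :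
    T < first q r H b ↔ number q r H T b = 0 := by
  have hne : {h : ℕ | 1 ≤ h ∧ AlmostPrime q r (b + q * (H + h))}.Nonempty := by
    have : NeZero q := ⟨by omega⟩
    obtain ⟨p, hp1, hp2, hp3⟩ := Nat.forall_exists_prime_gt_and_eq_mod
      ((ZMod.isUnit_iff_coprime b q).2 hb) (b + q * (H + 1))
    have h1 : p ≡ b [MOD q] := (ZMod.natCast_eq_natCast_iff _ _ _).1 hp3
    have h2 : q ∣ p - b := (Nat.modEq_iff_dvd' (by nlinarith)).1 h1.symm
    obtain ⟨k, hk⟩ := h2
    have hpb : p = b + q * k := by omega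
    have hHk : H + 1 < k := by
      by_contra hcon
      have : q * k ≤ q * (H + 1) := Nat.mul_le_mul_left q (by omega)
      omega
    refine ⟨k - H, by omega, ?_⟩
    rw [show b + q * (H + (k - H)) = p by rw [show H + (k - H) = k by omega]; exact hpb.symm]
    intro l hl hd
    have h3 : l = p := (Nat.prime_dvd_prime_iff_eq hl hp2).1 hd
    rw [h3]
    have hq1 : (1 : ℝ) ≤ q := by exact_mod_cast (by omega : 1 ≤ q)
    have h4 : (q : ℝ) ^ (1 / (r : ℝ)) ≤ (q : ℝ) ^ (1 : ℝ) := by
      apply Real.rpow_le_rpow_of_exponent_le hq1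
      rw [div_le_one (by exact_mod_cast (by omega : 0 < r))]
      exact_mod_cast hr
    rw [Real.rpow_one] at h4
    have h5 : q < p := by
      have : q * 1 ≤ q * (H + 1) := Nat.mul_le_mul_left q (by omega)
      omega
    have h6 : (q : ℝ) < p := by exact_mod_cast h5
    linarith
  unfold number
  rw [Set.ncard_eq_zero (Set.Finite.subset (Set.finite_Iic (H + T)) fun h hh => hh.2.1)]
  constructor
  · intro h
    ext k
    simp only [Set.mem_ofPred_eq, Set.mem_empty_iff_false, iff_false]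
    rintro ⟨h1, h2, h3⟩
    have h4 : first q r H b ≤ k - H := by
      apply Nat.sInf_le
      refine ⟨by omega, ?_⟩
      rw [show H + (k - H) = k by omega]
      exact h3
    omega
  · intro h
    have h1 := Nat.sInf_mem hne
    by_contra hcon
    have h2 : first q r H b ≤ T := by omega
    have h3 : H + first q r H b ∈ {h : ℕ | H < h ∧ h ≤ H + T ∧ AlmostPrime q r (b + q * h)} := by
      refine ⟨?_, by omega, h1.2⟩
      have := h1.1
      unfold first
      omega
    rw [h] at h3
    exact h3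

lemma few (q r B m : ℕ) (hq : 2 ≤ q) (hr : 1 ≤ r) (hm : 1 ≤ m) (hmB : m ≤ q ^ B)
    (h : AlmostPrime q r m) : m.primeFactorsList.length ≤ r * B := by
  have hq1 : (1 : ℝ) < q := by exact_mod_cast (by omega : 1 < q)
  have hr0 : (0 : ℝ) < r := by exact_mod_cast (by omega : 0 < r)
  refine Pool.Agent.Y879.GL.few_of_rough ((q : ℝ) ^ (1 / (r : ℝ)))
    (Real.one_lt_rpow hq1 (by positivity)) m (r * B) (by omega) ?_ (fun p hp hd => h p hp hd)
  have h1 : ((q : ℝ) ^ (1 / (r : ℝ))) ^ (r * B) = (q : ℝ) ^ B := by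
    rw [pow_mul, ← Real.rpow_natCast ((q : ℝ) ^ (1 / (r : ℝ))) r, ← Real.rpow_mul (by linarith)]
    rw [one_div, inv_mul_cancel₀ hr0.ne', Real.rpow_one]
  rw [h1]
  exact_mod_cast hmB

/-- the expected number in a window of `u * scale` terms is close to `u` -/
lemma mean_close (r : ℕ) (hr : 2 ≤ r) (x1 η : ℝ) (hx1 : 0 ≤ x1) (hη : 0 < η) : ∀ᶠ q : ℕ in atTop,
    ∀ u : ℝ, 0 ≤ u → u ≤ x1 →
      |(⌊u * scale q r⌋₊ : ℝ) * Vq (Qn Ql q) ⌊(q : ℝ) ^ (1 / (r : ℝ))⌋₊ - u| ≤ η := by
  obtain ⟨K, hK, hV⟩ := Vn_small r hr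
  have hrr : (0 : ℝ) < r := by exact_mod_cast (by omega : 0 < r)
  obtain ⟨g, hg⟩ : ∃ g, g = Real.exp Real.eulerMascheroniConstant := ⟨_, rfl⟩
  have hg0 : 0 < g := by rw [hg]; exact Real.exp_pos _
  obtain ⟨ε1, hε1⟩ : ∃ ε1 : ℝ, ε1 = η * r / (2 * (x1 + 1) * g) := ⟨_, rfl⟩
  have hε10 : 0 < ε1 := by rw [hε1]; positivity
  have hsqlog : Tendsto (fun q : ℕ => √(Real.log (q : ℝ))) atTop atTop :=
    Real.tendsto_sqrt_atTop.comp (Real.tendsto_log_atTop.comp tendsto_natCast_atTop_atTop)
  filter_upwards [hV, mean_asym r hr ε1 hε10, hsqlog.eventually_ge_atTop (2 * K / η),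
    eventually_ge_atTop 3] with q h1 h2 h3 h4
  intro u hu0 hu1
  obtain ⟨V, hVd⟩ : ∃ V, V = Vq (Qn Ql q) ⌊(q : ℝ) ^ (1 / (r : ℝ))⌋₊ := ⟨_, rfl⟩
  rw [← hVd] at h1 h2 ⊢
  have hV0 : 0 ≤ V := by rw [hVd]; exact Vq_nonneg _ _
  have hs0 : 0 < √(Real.log q) := by
    apply Real.sqrt_pos.2
    apply Real.log_pos
    exact_mod_cast (by omega : 1 < q)
  have hVη : V ≤ η / 2 := by
    refine h1.trans ?_
    rw [div_le_iff₀ hs0]
    rw [div_le_iff₀ hη] at h3
    linarith
  have hsc0 : 0 ≤ scale q r := by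
    unfold scale
    have : 0 ≤ Real.log q := Real.log_natCast_nonneg q
    positivity
  have hT1 : (⌊u * scale q r⌋₊ : ℝ) ≤ u * scale q r := Nat.floor_le (by positivity)
  have hT2 : u * scale q r < ⌊u * scale q r⌋₊ + 1 := Nat.lt_floor_add_one _
  -- the product with the scale
  have hmul : |scale q r * V - 1| ≤ η / (2 * (x1 + 1)) := by
    have e1 : scale q r * V - 1 = (V * ((q.totient : ℝ) / q) * Real.log q -
        r * Real.exp (-Real.eulerMascheroniConstant)) * (g / r) := by
      have e2 : Real.exp (-Real.eulerMascheroniConstant) = g⁻¹ := by rw [hg, Real.exp_neg]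
      rw [e2]
      unfold scale
      rw [← hg]
      field_simp
    rw [e1, abs_mul, abs_of_pos (by positivity : 0 < g / (r : ℝ))]
    calc |V * ((q.totient : ℝ) / q) * Real.log q - r * Real.exp (-Real.eulerMascheroniConstant)| *
          (g / r) ≤ ε1 * (g / r) := mul_le_mul_of_nonneg_right h2 (by positivity)
      _ = η / (2 * (x1 + 1)) := by rw [hε1]; field_simp
  have e3 : |u * scale q r * V - u| ≤ η / 2 := by
    rw [show u * scale q r * V - u = u * (scale q r * V - 1) by ring, abs_mul, abs_of_nonneg hu0]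
    calc u * |scale q r * V - 1| ≤ (x1 + 1) * (η / (2 * (x1 + 1))) :=
          mul_le_mul (by linarith) hmul (abs_nonneg _) (by linarith)
      _ = η / 2 := by field_simp
  have e4 := abs_le.1 e3
  rw [abs_le]
  have e5 : (⌊u * scale q r⌋₊ : ℝ) * V ≤ u * scale q r * V := mul_le_mul_of_nonneg_right hT1 hV0
  have e6 : (u * scale q r - 1) * V ≤ (⌊u * scale q r⌋₊ : ℝ) * V :=
    mul_le_mul_of_nonneg_right (by linarith) hV0
  constructor
  · nlinarith
  · linarith

open Classical in
/-- **The law of the almost primes, and of the least almost prime, in the residue classes modulo `q`.**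
Let `θ, ε > 0` and `x₀` be given. There is `r₀` such that for all `r ≥ r₀`, all large `q`, all `H` and
all intervals `(Z, Z + Y]` with `Y ≥ q ^ θ` the following holds for the `b` in the interval which are
coprime to `q`; their number is `Y φ(q) / q` up to `ε Y φ(q) / q`.

(1) For `0 ≤ u ≤ x₀` the number of the almost primes among the next `u (exp γ / r) (φ(q) / q) log q`
terms of the progression of `b` after the `H`-th one has the Poisson distribution of mean `u`, up to `ε`.

(2) The first almost prime after `b + q H` in the progression is `b + q H + q F`, where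
`F / ((exp γ / r) (φ(q) / q) log q)` has the exponential distribution, up to `ε`, uniformly on `[0, ∞)`.

(3) Almost primes below `q ^ B` have at most `r B` prime factors, and all primes larger than
`q ^ (1 / r)` are almost primes. -/
theorem result (θ x₀ ε : ℝ) (hθ : 0 < θ) (hε : 0 < ε) :
    (∃ r₀ : ℕ, 2 ≤ r₀ ∧ ∀ r : ℕ, r₀ ≤ r → ∀ᶠ q : ℕ in atTop, ∀ Z Y H : ℕ, (q : ℝ) ^ θ ≤ Y →
      |(((Ioc Z (Z + Y)).filter (fun b => b.Coprime q)).card : ℝ) - Y * ((q.totient : ℝ) / q)| ≤
        ε * (Y * ((q.totient : ℝ) / q)) ∧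
      (∀ u : ℝ, 0 ≤ u → u ≤ x₀ → ∀ A : Finset ℕ,
        |(((Ioc Z (Z + Y)).filter
            (fun b => b.Coprime q ∧ number q r H ⌊u * scale q r⌋₊ b ∈ A)).card : ℝ) -
          Y * ((q.totient : ℝ) / q) * ∑ j ∈ A, Real.exp (-u) * u ^ j / j.factorial| ≤
        ε * (Y * ((q.totient : ℝ) / q))) ∧
      (∀ u : ℝ, 0 ≤ u →
        |(((Ioc Z (Z + Y)).filter
            (fun b => b.Coprime q ∧ u * scale q r < first q r H b)).card : ℝ) -
          Y * ((q.totient : ℝ) / q) * Real.exp (-u)| ≤ ε * (Y * ((q.totient : ℝ) / q)))) ∧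
    (∀ q r B m : ℕ, 2 ≤ q → 1 ≤ r → 1 ≤ m → m ≤ q ^ B → AlmostPrime q r m →
      m.primeFactorsList.length ≤ r * B) ∧
    (∀ q r p : ℕ, p.Prime → (q : ℝ) ^ (1 / (r : ℝ)) < p → AlmostPrime q r p) := by
  refine ⟨?_, fun q r B m hq hr hm hmB h => few q r B m hq hr hm hmB h, ?_⟩
  swap
  · intro q r p hp hqp l hl hd
    rw [(Nat.prime_dvd_prime_iff_eq hl hp).1 hd]
    exact hqp
  obtain ⟨x1, hx1⟩ : ∃ x1 : ℝ, x1 = max (max x₀ (Real.log (4 / ε))) 0 := ⟨_, rfl⟩
  have hx10 : 0 ≤ x1 := by rw [hx1]; exact le_max_right _ _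
  have hx11 : x₀ ≤ x1 := by rw [hx1]; exact (le_max_left _ _).trans (le_max_left _ _)
  have hx12 : Real.log (4 / ε) ≤ x1 := by rw [hx1]; exact (le_max_right _ _).trans (le_max_left _ _)
  have hexp : Real.exp (-x1) ≤ ε / 4 := by
    calc Real.exp (-x1) ≤ Real.exp (-Real.log (4 / ε)) := Real.exp_le_exp.2 (by linarith)
      _ = ε / 4 := by rw [Real.exp_neg, Real.exp_log (by positivity), inv_div]
  obtain ⟨r0, hr0, hlaw⟩ := phi_law θ (x1 + 1) (ε / 4) hθ (by positivity)
  refine ⟨r0, hr0, ?_⟩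
  intro r hr
  have hr2 : 2 ≤ r := hr0.trans hr
  filter_upwards [hlaw r hr, mean_close r hr2 x1 (min (ε / 4) 1) hx10 (by positivity),
    eventually_ge_atTop 2] with q hL hM hq
  intro Z Y H hY
  obtain ⟨W, hW⟩ : ∃ W : ℝ, W = Y * ((q.totient : ℝ) / q) := ⟨_, rfl⟩
  have hW0 : 0 ≤ W := by rw [hW]; positivity
  have hpois : ∀ u : ℝ, 0 ≤ u → u ≤ x1 → ∀ A : Finset ℕ,
      |(((Ioc Z (Z + Y)).filter
          (fun b => b.Coprime q ∧ number q r H ⌊u * scale q r⌋₊ b ∈ A)).card : ℝ) -
        W * ∑ j ∈ A, Real.exp (-u) * u ^ j / j.factorial| ≤ ε / 2 * W := by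
    intro u hu0 hu1 A
    obtain ⟨T, hT⟩ : ∃ T, T = ⌊u * scale q r⌋₊ := ⟨_, rfl⟩
    obtain ⟨V, hV⟩ : ∃ V, V = Vq (Qn Ql q) ⌊(q : ℝ) ^ (1 / (r : ℝ))⌋₊ := ⟨_, rfl⟩
    have h1 := hM u hu0 hu1
    have h2 := hL (Z + q * H) Y hY T
    rw [← hT] at h1 ⊢
    rw [← hV] at h1 h2
    have hV0 : 0 ≤ V := by rw [hV]; exact Vq_nonneg _ _
    have hTV0 : 0 ≤ T * V := by positivity
    have h3 := h2 (by
      have := (abs_le.1 h1).2
      have := min_le_right (ε / 4) (1 : ℝ)
      linarith) A
    rw [← shift_card q Z Y H (fun b => Wr q ⌊(q : ℝ) ^ (1 / (r : ℝ))⌋₊ T b ∈ A)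
      (by infer_instance), ← hW] at h3
    have h5 := po_lip A (T * V) u hTV0 hu0
    unfold po at h5
    have h6 : |W * (∑ j ∈ A, Real.exp (-(T * V)) * (T * V) ^ j / j.factorial) -
        W * (∑ j ∈ A, Real.exp (-u) * u ^ j / j.factorial)| ≤ W * (ε / 4) := by
      rw [← mul_sub, abs_mul, abs_of_nonneg hW0]
      apply mul_le_mul_of_nonneg_left _ hW0
      exact h5.trans (h1.trans (min_le_left _ _))
    have h7 : ((Ioc Z (Z + Y)).filter
        (fun b => b.Coprime q ∧ number q r H T b ∈ A)) =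
        ((Ioc Z (Z + Y)).filter (fun b => b.Coprime q ∧
          Wr q ⌊(q : ℝ) ^ (1 / (r : ℝ))⌋₊ T (b + q * H) ∈ A)) := by
      apply Finset.filter_congr
      intro b _
      rw [number_eq]
    rw [h7]
    have h8 := abs_sub_le (((((Ioc Z (Z + Y)).filter (fun b => b.Coprime q ∧
          Wr q ⌊(q : ℝ) ^ (1 / (r : ℝ))⌋₊ T (b + q * H) ∈ A)).card : ℕ) : ℝ))
      (W * (∑ j ∈ A, Real.exp (-(T * V)) * (T * V) ^ j / j.factorial))
      (W * (∑ j ∈ A, Real.exp (-u) * u ^ j / j.factorial))
    linarith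
  have hfirst : ∀ u : ℝ, 0 ≤ u → u ≤ x1 →
      |(((Ioc Z (Z + Y)).filter
          (fun b => b.Coprime q ∧ u * scale q r < first q r H b)).card : ℝ) -
        W * Real.exp (-u)| ≤ ε / 2 * W := by
    intro u hu0 hu1
    have h1 := hpois u hu0 hu1 {0}
    rw [Finset.sum_singleton, pow_zero, Nat.factorial_zero, Nat.cast_one, mul_one, div_one] at h1
    have hsc0 : 0 ≤ scale q r := by
      unfold scale
      have : 0 ≤ Real.log q := Real.log_natCast_nonneg q
      positivity
    have h2 : ((Ioc Z (Z + Y)).filter (fun b => b.Coprime q ∧ u * scale q r < first q r H b)) =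
        ((Ioc Z (Z + Y)).filter
          (fun b => b.Coprime q ∧ number q r H ⌊u * scale q r⌋₊ b ∈ ({0} : Finset ℕ))) := by
      apply Finset.filter_congr
      intro b _
      apply and_congr_right
      intro hb
      rw [Finset.mem_singleton, ← first_iff q r H b _ hq (by omega) hb,
        Nat.floor_lt (by positivity)]
    rw [h2]
    exact h1
  rw [← hW]
  refine ⟨?_, fun u hu0 hu1 A => (hpois u hu0 (hu1.trans hx11) A).trans (by nlinarith), ?_⟩
  · have h1 := hpois 0 le_rfl hx10 {0}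
    rw [Finset.sum_singleton, pow_zero, Nat.factorial_zero, Nat.cast_one, neg_zero, Real.exp_zero,
      mul_one, div_one, mul_one] at h1
    have h2 : ((Ioc Z (Z + Y)).filter (fun b => b.Coprime q ∧
        number q r H ⌊0 * scale q r⌋₊ b ∈ ({0} : Finset ℕ))) =
        ((Ioc Z (Z + Y)).filter (fun b => b.Coprime q)) := by
      apply Finset.filter_congr
      intro b _
      constructor
      · exact fun h => h.1
      · intro h
        refine ⟨h, ?_⟩
        rw [Finset.mem_singleton, zero_mul, Nat.floor_zero]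
        unfold number
        rw [Set.ncard_eq_zero (Set.Finite.subset (Set.finite_Iic (H + 0)) fun h hh => hh.2.1)]
        ext k
        simp only [Set.mem_ofPred_eq, Set.mem_empty_iff_false, iff_false]
        omega
    rw [h2] at h1
    exact h1.trans (by nlinarith)
  · intro u hu0
    rcases le_or_gt u x1 with hu1 | hu1
    · exact (hfirst u hu0 hu1).trans (by nlinarith)
    · have h1 := hfirst x1 hx10 le_rfl
      have h2 : (((Ioc Z (Z + Y)).filter
          (fun b => b.Coprime q ∧ u * scale q r < first q r H b)).card : ℝ) ≤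
          (((Ioc Z (Z + Y)).filter
          (fun b => b.Coprime q ∧ x1 * scale q r < first q r H b)).card : ℝ) := by
        have hsc0 : 0 ≤ scale q r := by
          unfold scale
          have : 0 ≤ Real.log q := Real.log_natCast_nonneg q
          positivity
        exact_mod_cast Finset.card_le_card (by
          intro b hb
          rw [mem_filter] at hb ⊢
          refine ⟨hb.1, hb.2.1, ?_⟩
          have := mul_le_mul_of_nonneg_right hu1.le hsc0
          linarith [hb.2.2])
      have h3 : Real.exp (-u) ≤ ε / 4 := (Real.exp_le_exp.2 (by linarith)).trans hexp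
      have h4 := (abs_le.1 h1).2
      have h5 : 0 < Real.exp (-u) := Real.exp_pos _
      have h6 : W * Real.exp (-x1) ≤ W * (ε / 4) := mul_le_mul_of_nonneg_left hexp hW0
      have h7 : W * Real.exp (-u) ≤ W * (ε / 4) := mul_le_mul_of_nonneg_left h3 hW0
      have h8 : 0 ≤ W * Real.exp (-u) := by positivity
      have h9 : (0 : ℝ) ≤ (((Ioc Z (Z + Y)).filter
          (fun b => b.Coprime q ∧ u * scale q r < first q r H b)).card : ℝ) := Nat.cast_nonneg _
      rw [abs_le]
      constructor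
      · nlinarith
      · nlinarith

end Pool.Agent.Results.MP_458f0b_nt.LeastAlmostPrimeLaw
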