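import Pool.Agent.X31.S8
import Pool.Agent.X31.V2

/-!
# The least primes in almost all residue classes, for almost all moduli near
# the values of `n ^ k₀ log n` plus lower terms at integers with missing digits

`f(t) = t ^ k₀ log t + ∑ u_x t ^ x`, where `k₀ ≥ 1` is an integer and the sum is an arbitrary finite real combination of
real powers of `t` with exponents at most `k₀` (for instance `t log t - t`), `C` is the set of the integers with `m` digits
in base `b` whose digit at `b ^ j` is in `𝒟 j`, where the sets `𝒟 j` of allowed digits are arbitrary with at least TWO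
elements (for instance: the integers with the decimal digits `0` and `1` only; such sets can be as thin as `N ^ ε`). The
values considered are `b₀ + θ f(n)`, `n ∈ C`.
For almost all elements `n` of an ARBITRARY dense subset `M` of `C`, ALL moduli `a` within `log ^ D N` of the value at `n`
(and at least `N / log ^ κ N`) satisfy, for all `1 ≤ lam ≤ (log a) ^ κ`: the least prime `p(a, b)` is larger than
`lam φ(a) log a` for at most `(1 + ε) φ(a) / lam` of the reduced classes `b` (for `lam = C₁ log a`: `p(a, b) ≤ C₁ φ(a) log² a`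
for all reduced classes except for a proportion of at most `(1 + ε) / (C₁ log a)`), and for all `η > 0` at most
`(1 + ε) φ(a) / (η² lam)` of the reduced classes `b` have `|ψ(lam φ(a) log a; a, b) - lam log a| ≥ η lam log a`.

The minimal real additive energy of these values is from `Pool.Agent.X31.V1`, `V2` and `R1` - `R3` (in this run);
the theorem for families of small energy is in the starting files (`MP_5b0a7e_nt.ThinFamilyModuli`).
-/

set_option autoImplicit false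

namespace Pool.Agent.Results.MP_458f0b_nt.LogPowerModuli

open Finset

/-- the integers `0 ≤ n < b ^ m` whose digit at `b ^ j` in base `b` is in `𝒟 j`, for all `j < m` -/
def Digits (b : ℕ) (𝒟 : ℕ → Finset ℕ) (m : ℕ) : Finset ℕ :=
  (range (b ^ m)).filter (fun n => ∀ j < m, n / b ^ j % b ∈ 𝒟 j)

/-- the function `t ^ k₀ log t + ∑ u x * t ^ x` (over the exponents `x ∈ F`) -/
noncomputable def f (k₀ : ℕ) (F : Finset ℝ) (u : ℝ → ℝ) (t : ℝ) : ℝ := t ^ k₀ * Real.log t + ∑ x ∈ F, u x * t ^ x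

/-- `M` is a subset with at least `#(Digits b 𝒟 m) / log ^ D N` elements of the set `Digits b 𝒟 m`, where all sets `𝒟 j`
of allowed digits have at least two elements; the number `θ` is at most `log ^ D N` and at least
`N / (b ^ (k₀ m) log ^ D N)` in absolute value, and `|b₀ + θ f(n)| ≤ N` for all `n ∈ M`. -/
def Fam (b k₀ : ℕ) (F : Finset ℝ) (u : ℝ → ℝ) (D N m : ℕ) (𝒟 : ℕ → Finset ℕ) (θ b₀ : ℝ) (M : Finset ℕ) : Prop :=
  (∀ j, 𝒟 j ⊆ range b ∧ 2 ≤ (𝒟 j).card) ∧
  |θ| ≤ Real.log N ^ D ∧ (N : ℝ) / Real.log N ^ D ≤ |θ| * ((b : ℝ) ^ m) ^ k₀ ∧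
  M ⊆ Digits b 𝒟 m ∧ ((Digits b 𝒟 m).card : ℝ) / Real.log N ^ D ≤ M.card ∧ ∀ n ∈ M, |b₀ + θ * f k₀ F u n| ≤ N

open Classical in
/-- The number of the `b` with `0 ≤ b < a` and `gcd(a, b) = 1` for which no prime `p ≤ y` is congruent to `b` modulo
`a`; for `a ≥ 2` this is the number of the reduced classes with `p(a, b) > y`. -/
noncomputable def late (a : ℕ) (y : ℝ) : ℕ :=
  ((range a).filter (fun b => Nat.Coprime b a ∧ ∀ p : ℕ, p.Prime → (p : ℝ) ≤ y → ¬ p % a = b)).card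

/-- `ψ(y; a, b) = ∑_{n ≤ y, n ≡ b mod a} Λ(n)` for `0 ≤ b < a` -/
noncomputable def psiAP (y : ℝ) (a b : ℕ) : ℝ :=
  ∑ n ∈ (Icc 1 ⌊y⌋₊).filter (fun n => n % a = b), ArithmeticFunction.vonMangoldt n

open Classical in
/-- The number of the `b` with `0 ≤ b < a` and `gcd(a, b) = 1` with
`|ψ(lam φ(a) log a; a, b) - lam log a| ≥ η lam log a`. -/
noncomputable def off (a : ℕ) (lam η : ℝ) : ℕ :=
  ((range a).filter (fun b => Nat.Coprime b a ∧ η * (lam * Real.log a) ≤
    |psiAP (lam * (Nat.totient a * Real.log a)) a b - lam * Real.log a|)).card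

/-- For all real `1 ≤ lam ≤ (log a) ^ κ`: the least prime `p(a, b)` is larger than `lam φ(a) log a` for at most
`(1 + ε) φ(a) / lam` of the reduced classes `b`, and for all `η > 0` at most `(1 + ε) φ(a) / (η² lam)` of the reduced classes
`b` have `|ψ(lam φ(a) log a; a, b) - lam log a| ≥ η lam log a`. -/
def Good (ε : ℝ) (κ a : ℕ) : Prop :=
  ∀ lam : ℝ, 1 ≤ lam → lam ≤ Real.log a ^ κ →
    (late a (lam * (Nat.totient a * Real.log a)) : ℝ) ≤ (1 + ε) * Nat.totient a / lam ∧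
    ∀ η : ℝ, 0 < η → (off a lam η : ℝ) ≤ (1 + ε) * Nat.totient a / (lam * η ^ 2)

lemma dat_of {b k₀ : ℕ} {F : Finset ℝ} {u : ℝ → ℝ} {D N m : ℕ} {𝒟 : ℕ → Finset ℕ} {θ b₀ : ℝ} {M : Finset ℕ}
    (h : Fam b k₀ F u D N m 𝒟 θ b₀ M) :
    Pool.Agent.X31.CT.Dat3 b k₀ D N m 𝒟 θ b₀ (Pool.Agent.X31.lgp k₀ F u) M :=
  ⟨h.1, h.2.1, by rw [Real.rpow_natCast]; exact h.2.2.1, h.2.2.2.1, h.2.2.2.2.1, h.2.2.2.2.2⟩

/-- Let `b ≥ 2`, `k₀ ≥ 1` be integers, let `F` be a finite set of real numbers `x ≤ k₀`, and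
`f(t) = t ^ k₀ log t + ∑_{x ∈ F} u x * t ^ x`. Let `D`, `U`, `κ` be natural numbers and `0 < ε ≤ 1`. For all sufficiently large `N`,
all numbers `m` of digits, ALL sets `𝒟 j` of allowed digits, all
real `θ`, `b₀` and all sets `M` with `Fam b k₀ F u D N m 𝒟 θ b₀ M`: for all but at most
`#M / log ^ U N` elements `n` of `M`, ALL natural numbers `a ≥ N / log ^ κ N` with `|a - (b₀ + θ * f k₀ F u n)| ≤ log ^ D N` satisfy
`Good ε κ a`. -/
theorem result (b k₀ : ℕ) (hb : 2 ≤ b) (hk₀ : 1 ≤ k₀) (F : Finset ℝ) (u : ℝ → ℝ)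
    (hF : ∀ x ∈ F, x ≤ k₀) (D U κ : ℕ) (ε : ℝ)
    (hε : 0 < ε) (hε1 : ε ≤ 1) :
    ∃ N₀ : ℕ, ∀ N : ℕ, N₀ ≤ N → ∀ (m : ℕ) (𝒟 : ℕ → Finset ℕ) (θ b₀ : ℝ) (M : Finset ℕ), Fam b k₀ F u D N m 𝒟 θ b₀ M →
      ∃ E : Finset ℕ, (E.card : ℝ) ≤ M.card / Real.log N ^ U ∧ ∀ n ∈ M, n ∉ E →
        ∀ a : ℕ, (N : ℝ) / Real.log N ^ κ ≤ a → |(a : ℝ) - (b₀ + θ * f k₀ F u n)| ≤ Real.log N ^ D → Good ε κ a := by
  classical
  obtain ⟨N₀, h0⟩ := (Pool.Agent.X31.Sch_lg hb k₀ hk₀ F u hF).single D U _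
    (fun h' _ => Pool.Agent.X31.famO_lp h' ε hε hε1 κ)
  refine ⟨N₀ + 3, fun N hN m 𝒟 θ b₀ M hfam => ?_⟩
  have hNr : (3 : ℝ) ≤ N := by exact_mod_cast (by omega : 3 ≤ N)
  have hl : 0 < Real.log N := Real.log_pos (by linarith)
  obtain ⟨E, hE1, hE2⟩ := h0 N (by omega) M _ ⟨m, 𝒟, θ, b₀, dat_of hfam, fun _ => rfl⟩
  refine ⟨E, hE1, fun n hn hnE a ha has => ?_⟩
  rw [div_le_iff₀ (by positivity)] at ha
  have ha0 : 0 < a := by
    by_contra hcon
    have h1 : a = 0 := by omega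
    rw [h1, Nat.cast_zero, zero_mul] at ha
    linarith
  have h1 := hE2 n hn hnE (a : ℤ) (by push_cast; exact has) (by exact_mod_cast ha0) (by push_cast; exact ha)
  rw [Int.toNat_natCast] at h1
  exact h1

end Pool.Agent.Results.MP_458f0b_nt.LogPowerModuli
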