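import Pool.Agent.X67.AP.Fam

set_option autoImplicit false

namespace Pool.Agent.Results.MP_458f0b_nt.StructuredResidueClasses

open Finset Polynomial
open Pool.Agent.X67.AP

/-- **Residue classes with a large least prime inside structured sets of classes.** Let `r ≥ 1`, `k`
and `ε > 0`. There are `c > 0` and `p₀` such that for all primes `p ≥ p₀` the following holds, where
`R(p) = p log p (log₂ p)² log₄ p / (log₃ p)²` is the order of magnitude of the best known lower bound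
for the largest least prime in the residue classes modulo `p`.

(1) Let `F₁, …, F_r` be polynomials of degree at most `k` over the field with `p` elements, such
that no nontrivial linear combination of them is constant. Let `S` and `B` be sets of residues with
`|B| ≤ |S|` and `|S| |B| ≥ p ^ (1 + ε)`, such that every `b` in `B` is nonzero and all but
`p ^ (-ε) |S|` elements of `S` lie in `b S`. Then there is an `x` in `S` such that the classes
`F₁(x), …, F_r(x)` are nonzero and contain no prime below `c R(p)`.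

(2) The same holds for `S = {a, a θ, …, a θ ^ (M - 1)}`, `a ≠ 0`, when `p ^ (1/2 + ε) ≤ M` and `M`
is at most the order of `θ` modulo `p`.

(3) If the order `T` of `θ` is at least `p ^ (3/8 + ε)` then, for all `b` and all `a ≠ 0`, there is
an `l < T` such that the class of `b + a θ ^ l` is nonzero and contains no prime below `c R(p)`. -/
theorem result (r k : ℕ) (hr : 1 ≤ r) (ε : ℝ) (hε : 0 < ε) : ∃ c : ℝ, 0 < c ∧ ∃ p₀ : ℕ,
    ∀ (p : ℕ) [Fact p.Prime], p₀ ≤ p →
    (∀ (S B : Finset (ZMod p)) (F : Fin r → (ZMod p)[X]),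
      (∀ j, (F j).natDegree ≤ k) →
      (∀ h : Fin r → ZMod p, h ≠ 0 → 1 ≤ (∑ j, Polynomial.C (h j) * F j).natDegree) →
      B.card ≤ S.card → (p : ℝ) ^ (1 + ε) ≤ S.card * B.card →
      (∀ b ∈ B, b ≠ 0 ∧
        ((S \ S.image (fun x => b * x)).card : ℝ) ≤ (p : ℝ) ^ (-ε) * S.card) →
      ∃ x ∈ S, ∀ j, (F j).eval x ≠ 0 ∧ ∀ q : ℕ, q.Prime → (q : ZMod p) = (F j).eval x →
        c * (p * (Real.log p * (Real.log (Real.log p)) ^ 2 *
          Real.log (Real.log (Real.log (Real.log p))) /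
            (Real.log (Real.log (Real.log p))) ^ 2)) < q) ∧
    (∀ (θ a : ZMod p) (M : ℕ) (F : Fin r → (ZMod p)[X]),
      (∀ j, (F j).natDegree ≤ k) →
      (∀ h : Fin r → ZMod p, h ≠ 0 → 1 ≤ (∑ j, Polynomial.C (h j) * F j).natDegree) →
      θ ≠ 0 → a ≠ 0 → M ≤ orderOf θ → (p : ℝ) ^ (1 / 2 + ε) ≤ M →
      ∃ l : ℕ, l < M ∧ ∀ j, (F j).eval (a * θ ^ l) ≠ 0 ∧
        ∀ q : ℕ, q.Prime → (q : ZMod p) = (F j).eval (a * θ ^ l) →
        c * (p * (Real.log p * (Real.log (Real.log p)) ^ 2 *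
          Real.log (Real.log (Real.log (Real.log p))) /
            (Real.log (Real.log (Real.log p))) ^ 2)) < q) ∧
    (∀ θ a b : ZMod p, θ ≠ 0 → a ≠ 0 → (p : ℝ) ^ (3 / 8 + ε) ≤ orderOf θ →
      ∃ l : ℕ, l < orderOf θ ∧ b + a * θ ^ l ≠ 0 ∧
        ∀ q : ℕ, q.Prime → (q : ZMod p) = b + a * θ ^ l →
        c * (p * (Real.log p * (Real.log (Real.log p)) ^ 2 *
          Real.log (Real.log (Real.log (Real.log p))) /
            (Real.log (Real.log (Real.log p))) ^ 2)) < q) := by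
  obtain ⟨κ₁, hκ₁, p₁, h₁⟩ := almost_inv_least r k hr ε hε
  obtain ⟨κ₂, hκ₂, p₂, h₂⟩ := gp_least r k hr ε hε
  obtain ⟨κ₃, hκ₃, p₃, h₃⟩ := sub_least ε hε
  set κ := min κ₁ (min κ₂ κ₃) with hκdef
  have hκ : 0 < κ := lt_min hκ₁ (lt_min hκ₂ hκ₃)
  have k1 : κ ≤ κ₁ := min_le_left _ _
  have k2 : κ ≤ κ₂ := (min_le_right _ _).trans (min_le_left _ _)
  have k3 : κ ≤ κ₃ := (min_le_right _ _).trans (min_le_right _ _)
  -- positivity of the fourth logarithm
  have ev : ∀ᶠ p : ℕ in Filter.atTop, 0 ≤ Real.log (Real.log (Real.log (Real.log p))) ∧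
      0 ≤ Real.log (p : ℝ) := by
    have t1 : Filter.Tendsto (fun p : ℕ => Real.log (p : ℝ)) Filter.atTop Filter.atTop :=
      Real.tendsto_log_atTop.comp tendsto_natCast_atTop_atTop
    have t2 : Filter.Tendsto (fun p : ℕ => Real.log (Real.log (Real.log (Real.log (p : ℝ)))))
        Filter.atTop Filter.atTop :=
      Real.tendsto_log_atTop.comp (Real.tendsto_log_atTop.comp (Real.tendsto_log_atTop.comp t1))
    exact (t2.eventually_ge_atTop 0).and (t1.eventually_ge_atTop 0)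
  obtain ⟨p₄, hp₄⟩ := Filter.eventually_atTop.1 ev
  refine ⟨κ, hκ, max (max p₁ p₂) (max p₃ p₄), ?_⟩
  intro p _ hp
  have q1 : p₁ ≤ p := ((le_max_left _ _).trans (le_max_left _ _)).trans hp
  have q2 : p₂ ≤ p := ((le_max_right _ _).trans (le_max_left _ _)).trans hp
  have q3 : p₃ ≤ p := ((le_max_left _ _).trans (le_max_right _ _)).trans hp
  have q4 : p₄ ≤ p := ((le_max_right _ _).trans (le_max_right _ _)).trans hp
  obtain ⟨l4, l1⟩ := hp₄ p q4
  set R : ℝ := p * (Real.log p * (Real.log (Real.log p)) ^ 2 *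
      Real.log (Real.log (Real.log (Real.log p))) / (Real.log (Real.log (Real.log p))) ^ 2) with hR
  have hR0 : 0 ≤ R := by
    rw [hR]
    positivity
  have hRff : R = p * Pool.Agent.H256R2.SC.ff p := by
    rw [hR]
    rfl
  refine ⟨?_, ?_, ?_⟩
  · intro S B F hF hlin hle hSB hB
    obtain ⟨x, hx, hx2⟩ := h₁ p q1 S B F hF hlin hSB hle hB
    refine ⟨x, hx, fun j => ⟨(hx2 j).1, fun q hq hqx => ?_⟩⟩
    refine lt_of_le_of_lt (mul_le_mul_of_nonneg_right k1 hR0) ?_
    rw [hRff]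
    exact (hx2 j).2 q hq hqx
  · intro θ a M F hF hlin hθ ha hM hMp
    obtain ⟨l, hl, hl2⟩ := h₂ p q2 θ a M F hθ ha hM hMp hF hlin
    refine ⟨l, hl, fun j => ⟨(hl2 j).1, fun q hq hqx => ?_⟩⟩
    refine lt_of_le_of_lt (mul_le_mul_of_nonneg_right k2 hR0) ?_
    rw [hRff]
    exact (hl2 j).2 q hq hqx
  · intro θ a b hθ ha hT
    obtain ⟨l, hl, hl0, hl2⟩ := h₃ p q3 θ a b hθ ha hT
    refine ⟨l, hl, hl0, fun q hq hqx => ?_⟩
    refine lt_of_le_of_lt (mul_le_mul_of_nonneg_right k3 hR0) ?_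
    rw [hRff]
    exact hl2 q hq hqx

end Pool.Agent.Results.MP_458f0b_nt.StructuredResidueClasses
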